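import Pool.Agent.PFC.StmtsB2

/-!
# AIN: null intertwiners, from irreducible to finite-dimensional representations.
-/

noncomputable section

namespace Pool.Agent.PFC.B2.H19

open Pool.Agent.PFC.B1 Pool.Agent.PFC.B2

/-- AIN: if all `Γ`-intertwiners from irreducible representations of `A'` to `σ` are null, then all
those from finite-dimensional representations are null. -/
theorem ain (hSIM : SimStmt) (hAEX : AexStmt) : AinStmt := by
  intro F Γ A' H L S _ _ _ _ _ _ _ _ _ _ _ _ j nk σ hσ hall V _ _ _ υ
  -- induction on the dimension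
  suffices hmain : ∀ (n : ℕ) (V : Type) [AddCommGroup V] [Module L V] [Module.Finite L V]
      (υ : Rp (PowerSeries F) A' L V), Module.finrank L V = n → ∀ f : V →ₗ[L] S,
      IsHom (υ.res j) σ f → Nul nk (υ.res j) f from
    hmain (Module.finrank L V) V υ rfl
  clear υ
  intro n
  induction n using Nat.strong_induction_on with
  | _ n ih =>
    intro V _ _ _ υ hn f hf t ht
    rcases subsingleton_or_nontrivial V with hV | hV
    · rw [Subsingleton.elim t 0, map_zero]
    · obtain ⟨W, h, hW⟩ := hSIM (PowerSeries F) A' L V υ hV
      have h' : Stb (υ.res j) W := fun γ w hw => h (j γ) w hw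
      have hfW : IsHom ((subRp υ W h).res j) σ (f ∘ₗ W.subtype) := by
        intro γ w
        exact hf γ w.1
      have hnul := hall W (subRp υ W h) hW (f ∘ₗ W.subtype) hfW
      have hfW' : IsHom (subRp (υ.res j) W h') σ (f ∘ₗ W.subtype) := by
        intro γ w
        exact hf γ w.1
      have hnul' : Nul nk (subRp (υ.res j) W h') (f ∘ₗ W.subtype) := by
        intro w hw
        exact hnul w hw
      obtain ⟨g, hg, hgn, hgf⟩ := hAEX F Γ H L V S nk (υ.res j) σ W h' (f ∘ₗ W.subtype) hσ hfW' hnul'
      have hd : ∀ w ∈ W, (f - g) w = 0 := by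
        intro w hw
        have := hgf ⟨w, hw⟩
        change g w = f w at this
        rw [LinearMap.sub_apply, this, sub_self]
      have hle : W ≤ LinearMap.ker (f - g) := fun w hw => LinearMap.mem_ker.2 (hd w hw)
      have hq : IsHom ((quRp υ W h).res j) σ (W.liftQ (f - g) hle) := by
        intro γ y
        obtain ⟨x, rfl⟩ := W.mkQ_surjective y
        change (f - g) (υ.ρ (j γ) x) = σ.ρ γ ((f - g) x)
        rw [LinearMap.sub_apply, LinearMap.sub_apply, map_sub]
        have e1 := hf γ x
        have e2 := hg γ x
        change f (υ.ρ (j γ) x) = _ at e1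
        change g (υ.ρ (j γ) x) = _ at e2
        rw [e1, e2]
      have hWne : W ≠ ⊥ := by
        intro h0
        have := hW.1
        rw [h0] at this
        exact not_subsingleton _ (inferInstance : Subsingleton (⊥ : Submodule L V))
      have hlt : Module.finrank L (V ⧸ W) < n := by
        have h1 := Submodule.finrank_quotient_add_finrank W
        have h2 : 0 < Module.finrank L W := Module.finrank_pos_iff.2 hW.1
        omega
      have hfin := ih _ hlt (V ⧸ W) (quRp υ W h) rfl _ hq (W.mkQ t) (by
        have e : ((quRp υ W h).res j).ρ (nk.x ^ (nk.Q - 1)) (W.mkQ t) =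
            W.mkQ ((υ.res j).ρ (nk.x ^ (nk.Q - 1)) t) := rfl
        rw [e, ht, map_zero])
      change (f - g) t = 0 at hfin
      rw [LinearMap.sub_apply, hgn t ht, sub_zero] at hfin
      exact hfin

end Pool.Agent.PFC.B2.H19
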