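import Pool.Agent.PFC.StmtsB4b

/-!
# QCB: the Brauer quotient of a corner.
-/

open scoped BigOperators TensorProduct

noncomputable section

namespace Pool.Agent.PFC.H19

section general

variable {F V A : Type} [Field F] [Group V] [Ring A] [Algebra F A]

theorem cj_ap (α : V →* A) (v : V) (a : A) : cj F α v a = α v * a * α v⁻¹ := by
  change α v * (a * α v⁻¹) = α v * a * α v⁻¹
  rw [mul_assoc]

theorem inv_l (α : V →* A) (v : V) : α v⁻¹ * α v = 1 := by
  rw [← map_mul, inv_mul_cancel, map_one]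

theorem inv_r (α : V →* A) (v : V) : α v * α v⁻¹ = 1 := by
  rw [← map_mul, mul_inv_cancel, map_one]

/-- a product of fixed elements is fixed -/
theorem fx_mul (α : V →* A) (Q : Subgroup V) {a b : A} (ha : a ∈ Fx (cj F α) Q)
    (hb : b ∈ Fx (cj F α) Q) : a * b ∈ Fx (cj F α) Q := by
  intro q hq
  have h1 := ha q hq
  have h2 := hb q hq
  rw [cj_ap] at h1 h2 ⊢
  calc α q * (a * b) * α q⁻¹ = (α q * a * α q⁻¹) * (α q * b * α q⁻¹) := by
        have : α q * a * α q⁻¹ * (α q * b * α q⁻¹) = α q * a * (α q⁻¹ * α q) * (b * α q⁻¹) := by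
          noncomm_ring
        rw [this, inv_l, mul_one]
        noncomm_ring
    _ = a * b := by rw [h1, h2]

end general

section modules

variable {F V M N : Type} [Field F] [Group V] [AddCommGroup M] [Module F M]
  [AddCommGroup N] [Module F N]

/-- `g T f` is in the span of the relative traces if `T` is, for equivariant `f`, `g`. -/
theorem pt_comp (ρ : V →* (M →ₗ[F] M)) (σ : V →* (N →ₗ[F] N)) (Q : Subgroup V)
    (f : N →ₗ[F] M) (g : M →ₗ[F] N) (hf : ∀ v n, f (σ v n) = ρ v (f n))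
    (hg : ∀ v m, g (ρ v m) = σ v (g m)) {T : M →ₗ[F] M} (hT : T ∈ PT ρ Q) :
    g ∘ₗ T ∘ₗ f ∈ PT σ Q := by
  unfold PT at hT
  induction hT using Submodule.span_induction with
  | mem T hT =>
    obtain ⟨K, S, h, hK, hS, hc, hs⟩ := hT
    refine Submodule.subset_span ⟨K, S, g ∘ₗ h ∘ₗ f, hK, hS, ?_, ?_⟩
    · intro k hk m
      change σ k (g (h (f m))) = g (h (f (σ k m)))
      rw [hf, ← hc k hk, hg]
    · intro m
      change g (T (f m)) = ∑ x ∈ S, σ x (g (h (f (σ x⁻¹ m))))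
      rw [hs, map_sum]
      refine Finset.sum_congr rfl ?_
      intro x _
      rw [hg, hf]
  | zero =>
    rw [LinearMap.zero_comp, LinearMap.comp_zero]
    exact Submodule.zero_mem _
  | add a b _ _ ha hb =>
    rw [LinearMap.add_comp, LinearMap.comp_add]
    exact Submodule.add_mem _ ha hb
  | smul r a _ ha =>
    rw [LinearMap.smul_comp, LinearMap.comp_smul]
    exact Submodule.smul_mem _ _ ha

end modules

section corner

variable {F V : Type} [Field F] [CommGroup V]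

theorem cor_id {X Y : IA F V} {j : X.A} {κ : Y.A →ₗ[F] X.A} (h : Cor X Y j κ) : j * j = j := by
  have := h.mul 1 1
  rw [mul_one, h.one] at this
  exact this.symm

theorem cor_l {X Y : IA F V} {j : X.A} {κ : Y.A →ₗ[F] X.A} (h : Cor X Y j κ) (a : Y.A) :
    j * κ a = κ a := by
  have := h.mul 1 a
  rw [one_mul, h.one] at this
  exact this.symm

theorem cor_r {X Y : IA F V} {j : X.A} {κ : Y.A →ₗ[F] X.A} (h : Cor X Y j κ) (a : Y.A) :
    κ a * j = κ a := by
  have := h.mul a 1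
  rw [mul_one, h.one] at this
  exact this.symm

/-- the inclusion of the corner is equivariant -/
theorem cor_eq {X Y : IA F V} {j : X.A} {κ : Y.A →ₗ[F] X.A} (h : Cor X Y j κ) (v : V)
    (a : Y.A) : κ (cj F Y.ι v a) = cj F X.ι v (κ a) := by
  rw [cj_ap, cj_ap, h.mul, h.mul, h.cov, h.cov]
  calc X.ι v * j * κ a * (X.ι v⁻¹ * j) = X.ι v * (j * κ a) * (X.ι v⁻¹ * j) := by
        noncomm_ring
    _ = X.ι v * (κ a * j) * X.ι v⁻¹ := by
        rw [cor_l h, h.com]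
        noncomm_ring
    _ = X.ι v * κ a * X.ι v⁻¹ := by rw [cor_r h]

/-- the projection to the corner -/
theorem cor_pr {X Y : IA F V} {j : X.A} {κ : Y.A →ₗ[F] X.A} (h : Cor X Y j κ) :
    ∃ r : X.A →ₗ[F] Y.A, (∀ a, κ (r a) = j * a * j) ∧ (∀ b, r (κ b) = b) ∧
      ∀ v a, r (cj F X.ι v a) = cj F Y.ι v (r a) := by
  have hj := cor_id h
  have h1 : ∀ a : X.A, ∃ b, κ b = j * a * j := by
    intro a
    refine h.ran _ ?_ ?_
    · calc j * (j * a * j) = j * j * a * j := by noncomm_ring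
        _ = j * a * j := by rw [hj]
    · rw [mul_assoc, hj]
  choose r hr using h1
  refine ⟨{ toFun := r, map_add' := ?_, map_smul' := ?_ }, hr, ?_, ?_⟩
  · intro a b
    apply h.inj
    rw [map_add, hr, hr, hr]
    noncomm_ring
  · intro c a
    apply h.inj
    rw [map_smul, hr, hr, RingHom.id_apply, mul_smul_comm, smul_mul_assoc]
  · intro b
    apply h.inj
    change κ (r (κ b)) = κ b
    rw [hr, cor_l h, cor_r h]
  · intro v a
    apply h.inj
    rw [cor_eq h]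
    change κ (r _) = cj F X.ι v (κ (r a))
    rw [hr, hr, cj_ap, cj_ap]
    calc j * (X.ι v * a * X.ι v⁻¹) * j = (j * X.ι v) * a * (X.ι v⁻¹ * j) := by noncomm_ring
      _ = (X.ι v * j) * a * (j * X.ι v⁻¹) := by rw [h.com, h.com]
      _ = X.ι v * (j * a * j) * X.ι v⁻¹ := by noncomm_ring

end corner

/-- QCB: the Brauer quotient of a corner. -/
theorem qcb : QcbStmt := by
  intro ℓ _ F V _ _ _ _ X Y X' Y' Q β s j κ κy hp hB hC hCy
  obtain ⟨r, hr1, hr2, hr3⟩ := cor_pr hC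
  obtain ⟨t, ht1, ht2, ht3⟩ := cor_pr hCy
  have hjid := cor_id hC
  -- `j` is fixed
  have hjF : ∀ v, cj F X.ι v j = j := by
    intro v
    rw [cj_ap, hC.com, mul_assoc, inv_r, mul_one]
  have hjQ : j ∈ Fx (cj F X.ι) Q := fun q _ => hjF q
  -- the values of `s` are fixed
  have hsF : ∀ n, s n ∈ Fx (cj F X.ι) Q := by
    intro n q hq
    rw [← hB.es, hB.tr q hq]
  have hβj : ∀ a ∈ Fx (cj F X.ι) Q, β (j * a * j) = β j * β a * β j := by
    intro a ha
    rw [hB.mul _ (fx_mul X.ι Q hjQ ha) _ hjQ, hB.mul _ hjQ _ ha]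
  -- `κ a` is fixed if `a` is
  have hκF : ∀ a ∈ Fx (cj F X'.ι) Q, κ a ∈ Fx (cj F X.ι) Q := by
    intro a ha q hq
    rw [← cor_eq hC, ha q hq]
  have hβκ : ∀ a ∈ Fx (cj F X'.ι) Q, β j * β (κ a) * β j = β (κ a) := by
    intro a ha
    rw [← hβj _ (hκF a ha), cor_l hC, cor_r hC]
  let β' : X'.A →ₗ[F] Y'.A := t ∘ₗ β ∘ₗ κ
  let s' : Y'.A →ₗ[F] X'.A := r ∘ₗ s ∘ₗ κy
  have hβ' : ∀ a, β' a = t (β (κ a)) := fun a => rfl
  have hs' : ∀ b, s' b = r (s (κy b)) := fun b => rfl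
  have hlast : ∀ a ∈ Fx (cj F X'.ι) Q, κy (β' a) = β (κ a) := by
    intro a ha
    rw [hβ', ht1, hβκ a ha]
  -- `X'.ι v` is fixed
  have hιF : ∀ v, X'.ι v ∈ Fx (cj F X'.ι) Q := by
    intro v q _
    rw [cj_ap, ← map_mul, mul_comm q v, map_mul, mul_assoc, inv_r, mul_one]
  have hιX : ∀ v, X.ι v ∈ Fx (cj F X.ι) Q := by
    intro v q _
    rw [cj_ap, ← map_mul, mul_comm q v, map_mul, mul_assoc, inv_r, mul_one]
  have hbs : ∀ n, β' (s' n) = n := by
    intro n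
    rw [hβ', hs', hr1, hβj _ (hsF _), hB.bs, cor_l hCy, cor_r hCy, ht2]
  have heb : ∀ v m, β' (cj F X'.ι v m) = cj F Y'.ι v (β' m) := by
    intro v m
    rw [hβ', hβ', cor_eq hC, hB.eb, ht3]
  have hes : ∀ v n, s' (cj F Y'.ι v n) = cj F X'.ι v (s' n) := by
    intro v n
    rw [hs', hs', cor_eq hCy, hB.es, hr3]
  have htr : ∀ q ∈ Q, ∀ n, cj F Y'.ι q n = n := by
    intro q hq n
    apply hCy.inj
    rw [cor_eq hCy, hB.tr q hq]
  -- the defect `φ`
  let φ : X.A →ₗ[F] Y.A := β ∘ₗ κ ∘ₗ r - κy ∘ₗ t ∘ₗ β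
  have hφ : ∀ a, φ a = β (κ (r a)) - κy (t (β a)) := fun a => rfl
  have hφF : ∀ a ∈ Fx (cj F X.ι) Q, φ a = 0 := by
    intro a ha
    rw [hφ, hr1, ht1, hβj a ha, sub_self]
  have hφe : ∀ v a, φ (cj F X.ι v a) = cj F Y.ι v (φ a) := by
    intro v a
    rw [hφ, hφ, hr3, cor_eq hC, hB.eb, hB.eb, ht3, cor_eq hCy, map_sub]
  let g : X.A →ₗ[F] X'.A := r + r ∘ₗ s ∘ₗ φ
  have hg0 : ∀ a, g a = r a + r (s (φ a)) := fun a => rfl
  have hge : ∀ v a, g (cj F X.ι v a) = cj F X'.ι v (g a) := by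
    intro v a
    rw [hg0, hg0, hφe, hB.es, hr3, hr3, map_add]
  have hkey : LinearMap.id - s' ∘ₗ β' = g ∘ₗ (LinearMap.id - s ∘ₗ β) ∘ₗ κ := by
    apply LinearMap.ext
    intro a
    change a - s' (β' a) = g (κ a - s (β (κ a)))
    have e1 : φ (κ a - s (β (κ a))) = φ (κ a) := by
      rw [map_sub, hφF _ (hsF _), sub_zero]
    have e2 : s' (β' a) = r (s (κy (t (β (κ a))))) := rfl
    rw [hg0, e1, e2, hφ, map_sub r, hr2, map_sub s, map_sub r]
    abel
  refine ⟨β', s', ⟨⟨hbs, heb, hes, htr, ?_⟩, ?_, ?_⟩, hlast⟩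
  · rw [hkey]
    exact pt_comp _ _ Q κ g (fun v n => cor_eq hC v n) hge hB.hg
  · intro a ha b hb
    apply hCy.inj
    rw [hlast _ (fx_mul X'.ι Q ha hb), hC.mul, hB.mul _ (hκF a ha) _ (hκF b hb), hCy.mul,
      hlast a ha, hlast b hb]
  · intro v
    apply hCy.inj
    rw [hlast _ (hιF v), hC.cov, hB.mul _ (hιX v) _ hjQ, hB.cov, hCy.cov]

end Pool.Agent.PFC.H19
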