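import Pool.Agent.PFC.StmtsB5a

/-!
# QEXa: the quotient algebra `A(Q)` exists.
-/

open scoped BigOperators TensorProduct

noncomputable section

namespace Pool.Agent.PFC.H19

open Pool.Agent.PFC.B5a

/-- QEX: the quotient algebra exists. -/
theorem qexa : QexStmt := by
  intro hBK F V A _ _ _ _ _ α Q
  obtain ⟨h1, h2, h3⟩ := hBK F V A α Q
  let I : Ideal (Cz F α Q) :=
    { carrier := {a | (a : A) ∈ BK (cj F α) Q}
      add_mem' := by
        intro a b ha hb
        exact (BK (cj F α) Q).add_mem ha hb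
      zero_mem' := (BK (cj F α) Q).zero_mem
      smul_mem' := by
        intro c a ha
        exact (h3 c.1 c.2 a.1 ha).1 }
  have : I.IsTwoSided := ⟨by
    intro a b ha
    exact (h3 b.1 b.2 a.1 ha).2⟩
  refine ⟨Cz F α Q ⧸ I, inferInstance, inferInstance, Ideal.Quotient.mkₐ F I, ?_, ?_⟩
  · exact Ideal.Quotient.mkₐ_surjective F I
  · intro a
    rw [Ideal.Quotient.mkₐ_eq_mk, Ideal.Quotient.eq_zero_iff_mem]
    exact Iff.rfl

end Pool.Agent.PFC.H19
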